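import Pool.Agent.W558.S.Base1

set_option autoImplicit false
set_option linter.unusedVariables false

universe u

open Polynomial TensorProduct

namespace Pool.Agent.W418.SR

open scoped IntermediateField.algebraAdjoinAdjoin in
/-- Differentials of function fields of transcendence degree two over perfect fields. -/
lemma finrank_kaehler (k E : Type u) [Field k] [Field E] [Algebra k E] [PerfectField k]
    [Algebra.EssFiniteType k E] (h : Algebra.trdeg k E = 2) :
    Module.finrank E (Ω[E⁄k]) = 2 := by
  obtain ⟨s, hs, H⟩ := exists_isTranscendenceBasis_and_isSeparable_of_perfectField k E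
  let v : s → E := (↑)
  have hb : AlgebraicIndependent k v := hs.1
  have hsep : Algebra.IsSeparable (IntermediateField.adjoin k (Set.range v)) E := by
    convert! H <;> simp [v]
  let B := Algebra.adjoin k (Set.range v)
  let P := MvPolynomial s k
  let e : P ≃ₐ[k] B := hb.aevalEquiv
  let _ : Algebra P B := e.toAlgHom.toRingHom.toAlgebra
  let _ : Algebra P E := ((MvPolynomial.aeval v : P →ₐ[k] E) : P →+* E).toAlgebra
  have hPBE : IsScalarTower P B E := IsScalarTower.of_algebraMap_eq fun x => by
    exact (hb.algebraMap_aevalEquiv x).symm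
  have hkPE : IsScalarTower k P E := IsScalarTower.of_algebraMap_eq fun x => by
    exact ((MvPolynomial.aeval v : P →ₐ[k] E).commutes x).symm
  let F := IntermediateField.adjoin k (Set.range v)
  have h1 : Algebra.FormallyEtale P B := by
    let e' : P ≃ₐ[P] B := { e.toRingEquiv with commutes' := fun _ => rfl }
    exact Algebra.FormallyEtale.of_equiv e'
  have h2 : Algebra.FormallyEtale B F := .of_isLocalization (nonZeroDivisors _)
  have h3 : Algebra.FormallyEtale F E := Algebra.FormallyEtale.of_isSeparable _ E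
  have h4 : Algebra.FormallyEtale B E := .comp B F E
  have h5 : Algebra.FormallyEtale P E := .comp P B E
  rw [← (KaehlerDifferential.tensorKaehlerEquivOfFormallyEtale k P E).finrank_eq,
    Module.finrank_baseChange, Module.finrank_eq_nat_card_basis (KaehlerDifferential.mvPolynomialBasis k s)]
  have h6 := hs.cardinalMk_eq_trdeg
  rw [h] at h6
  have h7 : Nat.card s = 2 := by
    rw [Nat.card, h6]
    simp
  exact h7

section chart

open Pool.Agent.W558

variable {k E : Type u} [Field k] [Field E] [Algebra k E]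

lemma essFiniteType {A : Subalgebra k E} (hA : Sf A) : Algebra.EssFiniteType k E := by
  have := hA.sm
  have := hA.isFractionRing
  have : Algebra.EssFiniteType A E := Algebra.EssFiniteType.of_isLocalization E (nonZeroDivisors A)
  exact Algebra.EssFiniteType.comp k A E

/-- Fibres of the module of differentials. -/
lemma finrank_fibre [PerfectField k] (h : Algebra.trdeg k E = 2) {A : Subalgebra k E} (hA : Sf A)
    (κ : Type u) [Field κ] [Algebra A κ] : Module.finrank κ (κ ⊗[A] Ω[A⁄k]) = 2 := by
  have := hA.sm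
  have := hA.isFractionRing
  have hE := essFiniteType hA
  have hfe : Algebra.FormallyEtale A E := .of_isLocalization (nonZeroDivisors A)
  have hproj : Module.Projective A (Ω[A⁄k]) := inferInstance
  have hfin : Module.Finite A (Ω[A⁄k]) := inferInstance
  have h1 : Module.finrank E (E ⊗[A] Ω[A⁄k]) = 2 := by
    rw [(KaehlerDifferential.tensorKaehlerEquivOfFormallyEtale k A E).finrank_eq]
    exact finrank_kaehler k E h
  have h2 := Module.rankAtStalk_baseChange (R := A) (M := Ω[A⁄k]) (S := E) ⊥
  have h3 := Module.rankAtStalk_baseChange (R := A) (M := Ω[A⁄k]) (S := κ) ⊥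
  rw [Module.rankAtStalk_eq_finrank_of_free] at h2 h3
  have h4 := Module.rankAtStalk_eq_of_le_of_finite_of_flat (Ω[A⁄k])
    (p := (⊥ : PrimeSpectrum E).comap (algebraMap A E))
    (q := (⊥ : PrimeSpectrum κ).comap (algebraMap A κ)) (by
      intro x hx
      have hx' : algebraMap A E x = 0 := hx
      have : x = 0 := by
        have hinj := IsFractionRing.injective A E
        exact hinj (by rw [hx', map_zero])
      rw [this]
      exact Ideal.zero_mem _)
  rw [← h2, ← h3] at h4
  have h5 : Module.finrank E (E ⊗[A] Ω[A⁄k]) = Module.finrank κ (κ ⊗[A] Ω[A⁄k]) := h4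
  rw [← h5, h1]

/-- Tangent vectors are linear functionals on the fibre of the module of differentials. -/
noncomputable def ofFun {A : Subalgebra k E} {κ : Type u} [Field κ] [Algebra k κ] (φ : A →ₐ[k] κ)
    [Algebra A κ] (hi : ∀ (a : A), algebraMap A κ a = φ a)
    (f : κ ⊗[A] Ω[A⁄k] →ₗ[κ] κ) : TV φ where
  D := { toFun := fun a => f (1 ⊗ₜ KaehlerDifferential.D k A a)
         map_add' := by
          intro a b
          rw [map_add, TensorProduct.tmul_add, map_add]
         map_smul' := by
          intro r a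
          rw [RingHom.id_apply, (KaehlerDifferential.D k A).map_smul,
            ← algebraMap_smul A r (KaehlerDifferential.D k A a),
            TensorProduct.tmul_smul, ← algebraMap_smul κ (algebraMap k A r) (_ ⊗ₜ _),
            map_smul, smul_eq_mul, Algebra.smul_def, hi, φ.commutes] }
  leib := by
    intro a b
    change f (1 ⊗ₜ KaehlerDifferential.D k A (a * b)) =
      φ a * f (1 ⊗ₜ KaehlerDifferential.D k A b) + φ b * f (1 ⊗ₜ KaehlerDifferential.D k A a)
    have h1 : ∀ (c : A) (m : Ω[A⁄k]), f (1 ⊗ₜ (c • m)) = φ c * f (1 ⊗ₜ m) := by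
      intro c m
      rw [TensorProduct.tmul_smul, ← algebraMap_smul κ c (_ ⊗ₜ _), map_smul, hi, smul_eq_mul]
    rw [Derivation.leibniz, TensorProduct.tmul_add, map_add, h1, h1]

lemma ofFun_D {A : Subalgebra k E} {κ : Type u} [Field κ] [Algebra k κ] (φ : A →ₐ[k] κ)
    [Algebra A κ] (hi : ∀ (a : A), algebraMap A κ a = φ a)
    (f : κ ⊗[A] Ω[A⁄k] →ₗ[κ] κ) (a : A) :
    (ofFun φ hi f).D a = f (1 ⊗ₜ KaehlerDifferential.D k A a) := rfl

/-- The functional of a tangent vector. -/
lemma exists_fun {A : Subalgebra k E} {κ : Type u} [Field κ] [Algebra k κ] (φ : A →ₐ[k] κ)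
    [Algebra A κ] (hi : ∀ (a : A), algebraMap A κ a = φ a) (D : TV φ) :
    ∃ f : κ ⊗[A] Ω[A⁄k] →ₗ[κ] κ, ∀ a, f (1 ⊗ₜ KaehlerDifferential.D k A a) = D.D a := by
  have hst : IsScalarTower k A κ := IsScalarTower.of_algebraMap_eq fun r => by
    rw [hi, φ.commutes]
  have hsm : ∀ (a : A) (x : κ), a • x = φ a * x := fun a x => by
    rw [Algebra.smul_def, hi]
  let D' : Derivation k A κ :=
    { toFun := D.D
      map_add' := D.D.map_add
      map_smul' := D.D.map_smul
      map_one_eq_zero' := D.D_one
      leibniz' := by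
        intro a b
        change D.D (a * b) = a • D.D b + b • D.D a
        rw [D.leib, hsm, hsm] }
  refine ⟨LinearMap.liftBaseChange κ D'.liftKaehlerDifferential, fun a => ?_⟩
  rw [LinearMap.liftBaseChange_tmul, one_smul, Derivation.liftKaehlerDifferential_comp_D]
  rfl

lemma span_fibre {A : Subalgebra k E} {κ : Type u} [Field κ] [Algebra A κ] :
    Submodule.span κ (Set.range fun a : A => (1 : κ) ⊗ₜ[A] KaehlerDifferential.D k A a) = ⊤ := by
  rw [eq_top_iff]
  rintro x -
  induction x with
  | zero => exact Submodule.zero_mem _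
  | add x y hx hy => exact Submodule.add_mem _ hx hy
  | tmul c m =>
    have hm : m ∈ Submodule.span A (Set.range (KaehlerDifferential.D k A)) := by
      rw [KaehlerDifferential.span_range_derivation]; trivial
    induction hm using Submodule.span_induction with
    | mem y hy =>
      obtain ⟨a, rfl⟩ := hy
      have : c ⊗ₜ[A] KaehlerDifferential.D k A a =
          c • ((1 : κ) ⊗ₜ[A] KaehlerDifferential.D k A a) := by
        rw [TensorProduct.smul_tmul', smul_eq_mul, mul_one]
      rw [this]
      exact Submodule.smul_mem _ _ (Submodule.subset_span ⟨a, rfl⟩)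
    | zero => rw [TensorProduct.tmul_zero]; exact Submodule.zero_mem _
    | add y z _ _ hy hz => rw [TensorProduct.tmul_add]; exact Submodule.add_mem _ hy hz
    | smul a y _ hy =>
      rw [TensorProduct.tmul_smul, ← algebraMap_smul κ a]
      exact Submodule.smul_mem _ _ hy

end chart

open Pool.Agent.W558 in
theorem main : S_rank := by
  intro k E _ _ _ _ h A hA κ _ _ φ
  let _ : Algebra A κ := φ.toRingHom.toAlgebra
  have hi : ∀ a : A, algebraMap A κ a = φ a := fun a => rfl
  have h2 := finrank_fibre h hA κ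
  let V := κ ⊗[A] Ω[A⁄k]
  let d : A → V := fun a => (1 : κ) ⊗ₜ[A] KaehlerDifferential.D k A a
  obtain ⟨b, hb, hbs, hbl⟩ := exists_linearIndependent κ (Set.range d)
  rw [span_fibre] at hbs
  have hfin : Module.Finite κ V := Module.finite_of_finrank_pos (by rw [h2]; norm_num)
  let bas : Module.Basis b κ V := Module.Basis.mk hbl (by
    rw [Subtype.range_coe]; exact hbs.ge)
  have hbas : ∀ i, bas i = i := fun i => Module.Basis.mk_apply _ _ i
  have hcard : Nat.card b = 2 := by
    rw [← Module.finrank_eq_nat_card_basis bas]; exact h2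
  rw [Nat.card_coe_set_eq, Set.ncard_eq_two] at hcard
  obtain ⟨v, w, hvw, hbvw⟩ := hcard
  have hv : v ∈ b := by rw [hbvw]; simp
  have hw : w ∈ b := by rw [hbvw]; simp
  obtain ⟨x, hx⟩ := hb hv
  obtain ⟨y, hy⟩ := hb hw
  have hc : ∀ i j : b, bas.coord i (j : V) = Finsupp.single j (1 : κ) i := by
    intro i j
    rw [← hbas j, Module.Basis.coord_apply, Module.Basis.repr_self]
  have hne : (⟨v, hv⟩ : b) ≠ ⟨w, hw⟩ := fun h => hvw (congrArg Subtype.val h)
  refine ⟨x, y, ofFun φ hi (bas.coord ⟨v, hv⟩), ofFun φ hi (bas.coord ⟨w, hw⟩), ?_, ?_, ?_, ?_, ?_⟩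
  · rw [ofFun_D]
    change bas.coord ⟨v, hv⟩ (d x) = 1
    rw [hx]
    exact (hc ⟨v, hv⟩ ⟨v, hv⟩).trans Finsupp.single_eq_same
  · rw [ofFun_D]
    change bas.coord ⟨v, hv⟩ (d y) = 0
    rw [hy]
    exact (hc ⟨v, hv⟩ ⟨w, hw⟩).trans (Finsupp.single_eq_of_ne hne)
  · rw [ofFun_D]
    change bas.coord ⟨w, hw⟩ (d x) = 0
    rw [hx]
    exact (hc ⟨w, hw⟩ ⟨v, hv⟩).trans (Finsupp.single_eq_of_ne hne.symm)
  · rw [ofFun_D]
    change bas.coord ⟨w, hw⟩ (d y) = 1
    rw [hy]
    exact (hc ⟨w, hw⟩ ⟨w, hw⟩).trans Finsupp.single_eq_same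
  · intro D hDx hDy c
    obtain ⟨f, hf⟩ := exists_fun φ hi D
    have hf0 : f = 0 := by
      refine bas.ext ?_
      rintro ⟨i, hi⟩
      rw [hbas, LinearMap.zero_apply]
      change f i = 0
      rw [hbvw] at hi
      rcases hi with rfl | hi
      · rw [← hx]; exact (hf x).trans hDx
      · rw [Set.mem_singleton_iff] at hi
        rw [hi, ← hy]; exact (hf y).trans hDy
    rw [← hf c, hf0, LinearMap.zero_apply]

end Pool.Agent.W418.SR
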